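import Mathlib
import Pool.Agent.Helper429.Main

set_option autoImplicit false

/-!
Varieties of groups are given by sets of laws, i.e. sets of words in countably many letters.
The file gives a nilpotent variety `𝔘` (of class at most six) for which
`[𝔘, 𝔈] = [var F₅(𝔘), 𝔈]` although `𝔘` is not generated by its free group of rank five.
-/

namespace Pool.Agent.Results.MP_e8899b_al.NilpotentCounterexample

open scoped commutatorElement

universe u v

/-- The absolutely free group of countably infinite rank; its elements are the words. -/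
abbrev F : Type := FreeGroup ℕ

/-- The verbal subgroup of `G` generated by all values in `G` of the words in `S`. -/
def verbal (S : Set F) (G : Type u) [Group G] : Subgroup G :=
  Subgroup.closure {g : G | ∃ w ∈ S, ∃ φ : F →* G, φ w = g}

/-- `G` lies in the variety defined by the laws `S`: all values in `G` of the words in `S` are
trivial. -/
def InVariety (S : Set F) (G : Type u) [Group G] : Prop := ∀ w ∈ S, ∀ φ : F →* G, φ w = 1

/-- The sets of laws `S` and `T` define the same variety, i.e. the same class of groups. -/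
def SameVariety (S T : Set F) : Prop :=
  ∀ (G : Type u) [Group G], InVariety S G ↔ InVariety T G

/-- The set of all laws of the group `G`; the variety it defines is `var G`. -/
def laws (G : Type u) [Group G] : Set F := {w : F | ∀ φ : F →* G, φ w = 1}

/-- Verbal subgroups are normal. -/
instance verbal_normal (S : Set F) (G : Type u) [Group G] : (verbal S G).Normal := by
  constructor
  intro n hn g
  have h : verbal S G ≤ (verbal S G).comap (MulAut.conj g).toMonoidHom := by
    unfold verbal
    rw [Subgroup.closure_le]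
    rintro _ ⟨w, hw, φ, rfl⟩
    exact Subgroup.subset_closure ⟨w, hw, (MulAut.conj g).toMonoidHom.comp φ, rfl⟩
  have h2 := h hn
  simpa using h2

/-- The free group of rank `k` of the variety defined by `S`. -/
abbrev relFree (S : Set F) (k : ℕ) : Type := FreeGroup (Fin k) ⧸ verbal S (FreeGroup (Fin k))

/-- The laws of the free group of rank `k` of the variety `𝔘` defined by `S`; the variety they
define is `var F_k(𝔘)`. -/
def rankLaws (S : Set F) (k : ℕ) : Set F := laws (relFree S k)

/-- The laws defining the commutator variety `[𝔘, 𝔙]`, where `S` defines `𝔘` and `T` defines `𝔙`: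
all elements of the subgroup `[𝔘(F), 𝔙(F)]` of the absolutely free group. -/
def commLaws (S T : Set F) : Set F := ((⁅verbal S F, verbal T F⁆ : Subgroup F) : Set F)

/-- The law `x = 1`, defining the variety `𝔈` of trivial groups. -/
def trivialLaws : Set F := {FreeGroup.of 0}

/-- The variety defined by `S` consists of nilpotent groups of class at most `c`. -/
def NilpotentOfClassLE (S : Set F) (c : ℕ) : Prop :=
  ∀ (G : Type u) [Group G], InVariety S G → (⊤ : Subgroup G).lowerCentralSeries c = ⊥

/-- Sanity check: the trivial variety. -/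
lemma inVariety_trivialLaws (G : Type u) [Group G] : InVariety trivialLaws G ↔ ∀ g : G, g = 1 := by
  constructor
  · intro h g
    have := h (FreeGroup.of 0) rfl (FreeGroup.lift fun _ => g)
    simpa using this
  · intro h w _ φ
    exact h _

lemma verbal_trivialLaws : verbal trivialLaws F = ⊤ := by
  rw [eq_top_iff]
  intro g _
  exact Subgroup.subset_closure ⟨FreeGroup.of 0, rfl, FreeGroup.lift fun _ => g, by simp⟩

lemma map_verbal_le {G : Type u} {H : Type v} [Group G] [Group H] (S : Set F) (φ : G →* H) :
    (verbal S G).map φ ≤ verbal S H := by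
  rw [Subgroup.map_le_iff_le_comap]
  unfold verbal
  rw [Subgroup.closure_le]
  rintro _ ⟨w, hw, ψ, rfl⟩
  exact Subgroup.subset_closure ⟨w, hw, φ.comp ψ, rfl⟩

/-- Sanity check: the variety `[𝔘, 𝔈]` consists of the groups `G` with `𝔘(G)` central. -/
lemma inVariety_commLaws (S : Set F) (G : Type u) [Group G] :
    InVariety (commLaws S trivialLaws) G ↔ verbal S G ≤ Subgroup.center G := by
  constructor
  · intro h
    unfold verbal
    rw [Subgroup.closure_le]
    rintro _ ⟨w, hw, φ, rfl⟩
    rw [SetLike.mem_coe, Subgroup.mem_center_iff]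
    intro g
    let sh : F →* F := FreeGroup.lift fun n => FreeGroup.of (n + 1)
    let θ : F →* G := FreeGroup.lift fun n => Nat.casesOn n g (fun m => φ (FreeGroup.of m))
    have h1 : ⁅sh w, FreeGroup.of 0⁆ ∈ commLaws S trivialLaws := by
      unfold commLaws
      rw [verbal_trivialLaws]
      exact Subgroup.commutator_mem_commutator (Subgroup.subset_closure ⟨w, hw, sh, rfl⟩)
        (Subgroup.mem_top _)
    have h2 := h _ h1 θ
    rw [map_commutatorElement] at h2
    have h3 : θ (sh w) = φ w := by
      have : θ.comp sh = φ := by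
        apply FreeGroup.ext_hom
        intro n
        simp [θ, sh]
      exact DFunLike.congr_fun this w
    have h4 : θ (FreeGroup.of 0) = g := by simp [θ]
    rw [h3, h4, commutatorElement_eq_one_iff_mul_comm] at h2
    exact h2.symm
  · intro h w hw φ
    have h1 : φ w ∈ (⁅verbal S F, verbal trivialLaws F⁆ : Subgroup F).map φ := ⟨w, hw, rfl⟩
    rw [Subgroup.map_commutator] at h1
    have h2 : ⁅(verbal S F).map φ, (verbal trivialLaws F).map φ⁆ ≤ ⁅verbal S G, (⊤ : Subgroup G)⁆ :=
      Subgroup.commutator_mono (map_verbal_le S φ) le_top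
    have h3 : ⁅verbal S G, (⊤ : Subgroup G)⁆ = ⊥ :=
      Subgroup.commutator_top_right_eq_bot_iff_le_center.2 h
    have h4 := h2 h1
    rw [h3, Subgroup.mem_bot] at h4
    exact h4

open Pool.Agent.Helper429 (SG RR mem_SG mem_RR SG_map RR_map SG_le_RR RR_le_cent wrd wrd_mem_RR
  wrd_not_mem SC mem_cent L6_le Fac GG HH)

lemma verbal_SG : verbal (SG : Set F) F = SG := by
  apply le_antisymm
  · unfold verbal
    rw [Subgroup.closure_le]
    rintro _ ⟨w, hw, φ, rfl⟩
    exact SG_map hw φ
  · intro w hw
    exact Subgroup.subset_closure ⟨w, hw, MonoidHom.id F, rfl⟩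

lemma verbal_RR : verbal (RR : Set F) F = RR := by
  apply le_antisymm
  · unfold verbal
    rw [Subgroup.closure_le]
    rintro _ ⟨w, hw, φ, rfl⟩
    exact RR_map hw φ
  · intro w hw
    exact Subgroup.subset_closure ⟨w, hw, MonoidHom.id F, rfl⟩

lemma lift_eq {G : Type*} [Group G] (φ : F →* G) (w : F) :
    FreeGroup.lift (fun x => φ (FreeGroup.of x)) w = φ w := by
  have : FreeGroup.lift (fun x => φ (FreeGroup.of x)) = φ := by
    apply FreeGroup.ext_hom
    intro x
    simp
  rw [this]

/-- homomorphisms from a free group lift along surjections -/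
lemma exists_lift {G H : Type*} [Group G] [Group H] (π : G →* H) (hπ : Function.Surjective π)
    (φ : F →* H) : ∃ φ' : F →* G, ∀ w, π (φ' w) = φ w := by
  choose s hs using hπ
  refine ⟨FreeGroup.lift fun n => s (φ (FreeGroup.of n)), fun w => ?_⟩
  have : π.comp (FreeGroup.lift fun n => s (φ (FreeGroup.of n))) = φ := by
    apply FreeGroup.ext_hom
    intro n
    simp [hs]
  exact DFunLike.congr_fun this w

/-- values of the laws in any group mapping to `GG` -/
lemma map_verbal_mem {G : Type*} [Group G] (ψ : G →* GG) {g : G}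
    (hg : g ∈ verbal (SG : Set F) G) : ψ g ∈ HH := by
  have h : verbal (SG : Set F) G ≤ HH.comap ψ := by
    unfold verbal
    rw [Subgroup.closure_le]
    rintro _ ⟨w, hw, φ, rfl⟩
    have h1 := mem_SG.1 hw (fun x => (ψ.comp φ) (FreeGroup.of x))
    rw [lift_eq] at h1
    exact h1
  exact h hg

lemma rankLaws_SG : rankLaws (SG : Set F) 5 = (RR : Set F) := by
  apply Set.Subset.antisymm
  · intro w hw
    rw [SetLike.mem_coe, mem_RR]
    rintro Fx ⟨φ, ψ, h⟩
    have e : FreeGroup.lift Fx = ψ.comp φ := by
      apply FreeGroup.ext_hom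
      intro x
      rw [FreeGroup.lift_apply_of, h]; rfl
    rw [e]
    have h1 := hw ((QuotientGroup.mk' (verbal (SG : Set F) (FreeGroup (Fin 5)))).comp φ)
    exact map_verbal_mem ψ ((QuotientGroup.eq_one_iff (φ w)).1 h1)
  · intro w hw φ
    obtain ⟨φ', hφ'⟩ := exists_lift (QuotientGroup.mk' (verbal (SG : Set F) (FreeGroup (Fin 5))))
      (QuotientGroup.mk'_surjective _) φ
    rw [← hφ' w]
    apply (QuotientGroup.eq_one_iff _).2
    let ι : FreeGroup (Fin 5) →* F := FreeGroup.lift fun i => FreeGroup.of (i : ℕ)
    let ρ : F →* FreeGroup (Fin 5) :=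
      FreeGroup.lift fun n => if h : n < 5 then FreeGroup.of ⟨n, h⟩ else 1
    have hρι : ∀ g, ρ (ι g) = g := by
      intro g
      have : ρ.comp ι = MonoidHom.id _ := by
        apply FreeGroup.ext_hom
        intro i
        simp [ρ, ι]
      exact DFunLike.congr_fun this g
    have h1 : ι (φ' w) ∈ SG := by
      rw [mem_SG]
      intro Fx
      have h2 := mem_RR.1 hw (fun x => (FreeGroup.lift Fx) (ι (φ' (FreeGroup.of x))))
        ⟨φ', (FreeGroup.lift Fx).comp ι, fun x => rfl⟩
      have h3 := lift_eq (((FreeGroup.lift Fx).comp ι).comp φ') w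
      have h4 : FreeGroup.lift (fun x => (FreeGroup.lift Fx) (ι (φ' (FreeGroup.of x)))) w =
        FreeGroup.lift Fx (ι (φ' w)) := h3
      rw [h4] at h2
      exact h2
    exact Subgroup.subset_closure ⟨ι (φ' w), h1, ρ, hρι _⟩

/-- elements of the lower central series are values of words in the lower central series -/
lemma lcs_value (G : Type u) [Group G] (n : ℕ) : ∀ g ∈ (⊤ : Subgroup G).lowerCentralSeries n,
    ∃ w ∈ (⊤ : Subgroup F).lowerCentralSeries n, ∃ φ : F →* G, φ w = g := by
  induction n with
  | zero =>
    intro g _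
    exact ⟨FreeGroup.of 0, Subgroup.mem_top _, FreeGroup.lift fun _ => g, by simp⟩
  | succ n ih =>
    intro g hg
    rw [Subgroup.mem_lowerCentralSeries_succ_iff] at hg
    induction hg using Subgroup.closure_induction with
    | mem x hx =>
      obtain ⟨p, hp, q, _, rfl⟩ := hx
      obtain ⟨w, hw, φ, rfl⟩ := ih p hp
      let sh : F →* F := FreeGroup.lift fun n => FreeGroup.of (n + 1)
      let θ : F →* G := FreeGroup.lift fun n => Nat.casesOn n q (fun m => φ (FreeGroup.of m))
      have h1 : sh w ∈ (⊤ : Subgroup F).lowerCentralSeries n := by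
        have h2 : sh w ∈ ((⊤ : Subgroup F).lowerCentralSeries n).map sh := ⟨w, hw, rfl⟩
        rw [Subgroup.map_lowerCentralSeries] at h2
        have h3 : ∀ k : ℕ, ((⊤ : Subgroup F).map sh).lowerCentralSeries k ≤
            (⊤ : Subgroup F).lowerCentralSeries k := by
          intro k
          induction k with
          | zero => exact le_top
          | succ k ihk => exact Subgroup.commutator_mono ihk le_top
        exact h3 n h2
      refine ⟨⁅sh w, FreeGroup.of 0⁆, Subgroup.commutator_mem_commutator h1 (Subgroup.mem_top _),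
        θ, ?_⟩
      rw [map_commutatorElement]
      have h3 : θ (sh w) = φ w := by
        have : θ.comp sh = φ := by
          apply FreeGroup.ext_hom
          intro n
          simp [θ, sh]
        exact DFunLike.congr_fun this w
      have h4 : θ (FreeGroup.of 0) = q := by simp [θ]
      rw [h3, h4]
    | one => exact ⟨1, Subgroup.one_mem _, 1, rfl⟩
    | mul x y _ _ ihx ihy =>
      obtain ⟨w₁, hw₁, φ₁, rfl⟩ := ihx
      obtain ⟨w₂, hw₂, φ₂, rfl⟩ := ihy
      have hinv : ∀ (sh : F →* F), ∀ w ∈ (⊤ : Subgroup F).lowerCentralSeries (n + 1),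
          sh w ∈ (⊤ : Subgroup F).lowerCentralSeries (n + 1) := by
        intro sh w hw
        have h2 : sh w ∈ ((⊤ : Subgroup F).lowerCentralSeries (n + 1)).map sh := ⟨w, hw, rfl⟩
        rw [Subgroup.map_lowerCentralSeries] at h2
        have h3 : ∀ k : ℕ, ((⊤ : Subgroup F).map sh).lowerCentralSeries k ≤
            (⊤ : Subgroup F).lowerCentralSeries k := by
          intro k
          induction k with
          | zero => exact le_top
          | succ k ihk => exact Subgroup.commutator_mono ihk le_top
        exact h3 _ h2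
      let e : F →* F := FreeGroup.lift fun n => FreeGroup.of (2 * n)
      let o : F →* F := FreeGroup.lift fun n => FreeGroup.of (2 * n + 1)
      let θ : F →* G := FreeGroup.lift fun n =>
        if n % 2 = 0 then φ₁ (FreeGroup.of (n / 2)) else φ₂ (FreeGroup.of (n / 2))
      refine ⟨e w₁ * o w₂, Subgroup.mul_mem _ (hinv e _ hw₁) (hinv o _ hw₂), θ, ?_⟩
      have h1 : θ (e w₁) = φ₁ w₁ := by
        have : θ.comp e = φ₁ := by
          apply FreeGroup.ext_hom
          intro n
          simp [θ, e]
        exact DFunLike.congr_fun this w₁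
      have h2 : θ (o w₂) = φ₂ w₂ := by
        have : θ.comp o = φ₂ := by
          apply FreeGroup.ext_hom
          intro n
          have h3 : (2 * n + 1) % 2 = 1 := by omega
          have h4 : (2 * n + 1) / 2 = n := by omega
          simp [θ, o, h4]
        exact DFunLike.congr_fun this w₂
      rw [map_mul, h1, h2]
    | inv x _ ihx =>
      obtain ⟨w, hw, φ, rfl⟩ := ihx
      exact ⟨w⁻¹, Subgroup.inv_mem _ hw, φ, map_inv _ _⟩

/-- There is a nilpotent variety `𝔘` of class at most six, given by a set `S` of laws, such that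
`[𝔘, 𝔈] = [var F₅(𝔘), 𝔈]` but `𝔘 ≠ var F₅(𝔘)`. -/
theorem result : ∃ S : Set F,
    NilpotentOfClassLE.{u} S 6 ∧
    SameVariety.{u} (commLaws S trivialLaws) (commLaws (rankLaws S 5) trivialLaws) ∧
    (∀ (G : Type u) [Group G],
      verbal S G ≤ Subgroup.center G ↔ verbal (rankLaws S 5) G ≤ Subgroup.center G) ∧
    ¬ SameVariety.{u} S (rankLaws S 5) := by
  have hcomm : commLaws (SG : Set F) trivialLaws = commLaws (rankLaws (SG : Set F) 5) trivialLaws := by
    rw [rankLaws_SG]
    unfold commLaws
    rw [verbal_SG, verbal_RR, verbal_trivialLaws]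
    have : ⁅SG, (⊤ : Subgroup F)⁆ = ⁅RR, (⊤ : Subgroup F)⁆ := by
      apply le_antisymm
      · exact Subgroup.commutator_mono SG_le_RR le_rfl
      · rw [Subgroup.commutator_le]
        intro a ha b _
        exact mem_cent.1 (RR_le_cent ha) b
    rw [this]
  refine ⟨(SG : Set F), ?_, ?_, ?_, ?_⟩
  · intro G _ hG
    rw [eq_bot_iff]
    intro g hg
    obtain ⟨w, hw, φ, rfl⟩ := lcs_value G 6 g hg
    rw [Subgroup.mem_bot]
    exact hG w (L6_le hw) φ
  · intro G _
    rw [hcomm]
  · intro G _
    rw [← inVariety_commLaws, ← inVariety_commLaws, hcomm]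
  · intro h
    rw [rankLaws_SG] at h
    have h1 := (h (ULift.{u} (F ⧸ SG))).1 (by
      intro w hw φ
      obtain ⟨φ', hφ'⟩ := exists_lift
        ((MulEquiv.ulift (α := F ⧸ SG)).symm.toMonoidHom.comp (QuotientGroup.mk' SG))
        ((MulEquiv.ulift (α := F ⧸ SG)).symm.surjective.comp (QuotientGroup.mk'_surjective _)) φ
      rw [← hφ' w, MonoidHom.comp_apply]
      have : QuotientGroup.mk' SG (φ' w) = 1 := (QuotientGroup.eq_one_iff _).2 (SG_map hw φ')
      rw [this, map_one])
    have h2 := h1 wrd wrd_mem_RR
      ((MulEquiv.ulift (α := F ⧸ SG)).symm.toMonoidHom.comp (QuotientGroup.mk' SG))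
    rw [MonoidHom.comp_apply] at h2
    have h3 : QuotientGroup.mk' SG wrd = 1 := by
      apply (MulEquiv.ulift (α := F ⧸ SG)).symm.injective
      rw [map_one]
      exact h2
    exact wrd_not_mem ((QuotientGroup.eq_one_iff _).1 h3)

end Pool.Agent.Results.MP_e8899b_al.NilpotentCounterexample
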